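import Mathlib

set_option autoImplicit false

open Filter Topology

namespace Pool.Agent.V5helper44.FZ

lemma num_law (C₁ η₁ : ℝ) (hC : 0 < C₁) (hη : 0 < η₁) (e V : ℕ) : ∃ D K₀ : ℕ, 1 ≤ D ∧ ∀ K : ℕ, K₀ ≤ K → ∀ m, K = m + e →
    C₁ * ((2 : ℝ) ^ (D * (Nat.log 2 K + 1) - 1) / 2 ^ (K + 1) * 2 ^ m) ^ (-η₁) ≤ 1 / (K : ℝ) ^ V := by
  obtain ⟨D, hD⟩ := exists_nat_ge (((V : ℝ) + 1) / η₁ + 1)
  have hDη : (V : ℝ) + 1 ≤ D * η₁ := by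
    have h1 : ((V : ℝ) + 1) / η₁ ≤ D := by linarith
    rwa [div_le_iff₀ hη] at h1
  have hD1 : 1 ≤ D := by
    have : (0 : ℝ) < D := lt_of_lt_of_le (by positivity) hD
    have : 0 < D := by exact_mod_cast this
    omega
  obtain ⟨K₁, hK₁⟩ := exists_nat_ge (C₁ * (4 * 2 ^ e) ^ η₁)
  refine ⟨D, K₁ + 1, hD1, fun K hK m hm => ?_⟩
  have hK1 : (1 : ℝ) ≤ K := by exact_mod_cast (by omega : 1 ≤ K)
  have hK0 : (0 : ℝ) < K := by linarith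
  obtain ⟨l, hl⟩ : ∃ l, l = Nat.log 2 K + 1 := ⟨_, rfl⟩
  rw [← hl]
  have hKl : (K : ℝ) ≤ 2 ^ l := by
    have : K < 2 ^ l := by rw [hl]; exact Nat.lt_pow_succ_log_self (by norm_num) K
    exact_mod_cast this.le
  have hDl : 1 ≤ D * l := Nat.mul_pos (by omega) (by omega)
  have h5 : (2 : ℝ) ^ (D * l - 1) / 2 ^ (K + 1) * 2 ^ m = (2 ^ l) ^ D / (4 * 2 ^ e) := by
    have h6 : (2 : ℝ) ^ (D * l) = 2 ^ (D * l - 1) * 2 := by
      rw [← pow_succ]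
      congr 1
      omega
    rw [← pow_mul, mul_comm l, h6, hm, pow_succ, pow_add]
    field_simp
    norm_num
  rw [h5]
  have h7 : (K : ℝ) ^ D / (4 * 2 ^ e) ≤ (2 ^ l) ^ D / (4 * 2 ^ e) := by
    apply div_le_div_of_nonneg_right (pow_le_pow_left₀ hK0.le hKl D) (by positivity)
  have h8 : ((2 ^ l : ℝ) ^ D / (4 * 2 ^ e)) ^ (-η₁) ≤ ((K : ℝ) ^ D / (4 * 2 ^ e)) ^ (-η₁) :=
    Real.rpow_le_rpow_of_nonpos (by positivity) h7 (by linarith)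
  have h9 : ((K : ℝ) ^ D / (4 * 2 ^ e)) ^ (-η₁) = (K : ℝ) ^ (-(D * η₁)) * (4 * 2 ^ e) ^ η₁ := by
    rw [Real.div_rpow (by positivity) (by positivity), ← Real.rpow_natCast, ← Real.rpow_mul hK0.le,
      Real.rpow_neg (by positivity : (0 : ℝ) ≤ 4 * 2 ^ e)]
    rw [div_inv_eq_mul]
    congr 2
    ring
  have h10 : (K : ℝ) ^ (-(D * η₁)) ≤ (K : ℝ) ^ (-((V : ℝ) + 1)) :=
    Real.rpow_le_rpow_of_exponent_le hK1 (by linarith)
  have h11 : (K : ℝ) ^ (-((V : ℝ) + 1)) = 1 / (K : ℝ) ^ V * (1 / K) := by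
    rw [Real.rpow_neg hK0.le, Real.rpow_add_one hK0.ne', Real.rpow_natCast, mul_inv]
    simp
  calc C₁ * ((2 ^ l : ℝ) ^ D / (4 * 2 ^ e)) ^ (-η₁) ≤ C₁ * ((K : ℝ) ^ (-(D * η₁)) * (4 * 2 ^ e) ^ η₁) := by
        rw [← h9]
        exact mul_le_mul_of_nonneg_left h8 hC.le
    _ ≤ C₁ * ((1 / (K : ℝ) ^ V * (1 / K)) * (4 * 2 ^ e) ^ η₁) := by
        apply mul_le_mul_of_nonneg_left _ hC.le
        apply mul_le_mul_of_nonneg_right _ (by positivity)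
        rw [← h11]
        exact h10
    _ = 1 / (K : ℝ) ^ V * ((C₁ * (4 * 2 ^ e) ^ η₁) / K) := by ring
    _ ≤ 1 / (K : ℝ) ^ V * 1 := by
        apply mul_le_mul_of_nonneg_left _ (by positivity)
        rw [div_le_one hK0]
        have : (K₁ : ℝ) ≤ K := by exact_mod_cast (by omega : K₁ ≤ K)
        linarith
    _ = _ := mul_one _

lemma num_anti (C₁ η₁ : ℝ) (hC : 0 < C₁) (hη : 0 < η₁) (e U : ℕ) : ∃ W K₀ : ℕ, ∀ K : ℕ, K₀ ≤ K → ∀ m, K = m + e →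
    1 ≤ ((2 ^ K : ℕ) : ℝ) / Real.log ((2 ^ K : ℕ) : ℝ) ^ (W + 1) ∧
    C₁ * (((2 ^ K : ℕ) : ℝ) / Real.log ((2 ^ K : ℕ) : ℝ) ^ (W + 1) / 2 ^ m) ^ η₁ ≤ 1 / (K : ℝ) ^ (U + 1) := by
  obtain ⟨W, hW⟩ := exists_nat_ge (((U : ℝ) + 2) / η₁)
  have hWη : (U : ℝ) + 2 ≤ ((W : ℝ) + 1) * η₁ := by
    rw [div_le_iff₀ hη] at hW
    nlinarith
  obtain ⟨K₁, hK₁⟩ := exists_nat_ge (C₁ * (2 ^ (e + (W + 1))) ^ η₁)
  obtain ⟨K₂, hK₂⟩ : ∃ K₂ : ℕ, ∀ K : ℕ, K₂ ≤ K → (K : ℝ) ^ (W + 1) ≤ 2 ^ K := by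
    have h1 := (isLittleO_pow_const_const_pow_of_one_lt (R := ℝ) (W + 1) (by norm_num : (1 : ℝ) < 2)).bound
      (show (0 : ℝ) < 1 by norm_num)
    obtain ⟨K₂, hK₂⟩ := eventually_atTop.mp h1
    refine ⟨K₂, fun K hK => ?_⟩
    have h2 := hK₂ K hK
    rwa [Real.norm_of_nonneg (by positivity), Real.norm_of_nonneg (by positivity), one_mul] at h2
  refine ⟨W, K₁ + K₂ + 1, fun K hK m hm => ?_⟩
  have hK1 : (1 : ℝ) ≤ K := by exact_mod_cast (by omega : 1 ≤ K)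
  have hK0 : (0 : ℝ) < K := by linarith
  have hlog : Real.log ((2 ^ K : ℕ) : ℝ) = K * Real.log 2 := by
    push_cast
    rw [Real.log_pow]
  have hl1 : (K : ℝ) / 2 ≤ Real.log ((2 ^ K : ℕ) : ℝ) := by
    rw [hlog]
    nlinarith [Real.log_two_gt_d9]
  have hl2 : Real.log ((2 ^ K : ℕ) : ℝ) ≤ K := by
    rw [hlog]
    nlinarith [Real.log_two_lt_d9]
  have hl0 : 0 < Real.log ((2 ^ K : ℕ) : ℝ) := lt_of_lt_of_le (by positivity) hl1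
  obtain ⟨L, hL⟩ : ∃ L, L = Real.log ((2 ^ K : ℕ) : ℝ) := ⟨_, rfl⟩
  rw [← hL] at hl0 hl1 hl2 ⊢
  constructor
  · rw [one_le_div (by positivity)]
    push_cast
    exact (pow_le_pow_left₀ hl0.le hl2 _).trans (hK₂ K (by omega))
  · have h1 : ((2 ^ K : ℕ) : ℝ) / L ^ (W + 1) / 2 ^ m ≤ 2 ^ (e + (W + 1)) / (K : ℝ) ^ (W + 1) := by
      have h2 : ((2 ^ K : ℕ) : ℝ) / L ^ (W + 1) / 2 ^ m = 2 ^ e / L ^ (W + 1) := by
        rw [hm]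
        push_cast
        rw [pow_add]
        field_simp
      rw [h2]
      have h3 : ((K : ℝ) / 2) ^ (W + 1) ≤ L ^ (W + 1) := pow_le_pow_left₀ (by positivity) hl1 _
      calc (2 : ℝ) ^ e / L ^ (W + 1) ≤ 2 ^ e / ((K : ℝ) / 2) ^ (W + 1) :=
            div_le_div_of_nonneg_left (by positivity) (by positivity) h3
        _ = _ := by
            rw [div_pow, div_div_eq_mul_div, ← pow_add]
    have h4 : (((2 ^ K : ℕ) : ℝ) / L ^ (W + 1) / 2 ^ m) ^ η₁ ≤ (2 ^ (e + (W + 1)) / (K : ℝ) ^ (W + 1)) ^ η₁ :=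
      Real.rpow_le_rpow (by positivity) h1 hη.le
    have h5 : ((2 : ℝ) ^ (e + (W + 1)) / (K : ℝ) ^ (W + 1)) ^ η₁ =
        (2 ^ (e + (W + 1))) ^ η₁ * (K : ℝ) ^ (-(((W : ℝ) + 1) * η₁)) := by
      rw [Real.div_rpow (by positivity) (by positivity)]
      have h6 : ((K : ℝ) ^ (W + 1)) ^ η₁ = (K : ℝ) ^ (((W : ℝ) + 1) * η₁) := by
        rw [Real.rpow_mul hK0.le]
        congr 1
        rw [← Nat.cast_add_one, Real.rpow_natCast]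
      rw [h6, Real.rpow_neg hK0.le, div_eq_mul_inv]
    have h7 : (K : ℝ) ^ (-(((W : ℝ) + 1) * η₁)) ≤ (K : ℝ) ^ (-((U : ℝ) + 2)) :=
      Real.rpow_le_rpow_of_exponent_le hK1 (by linarith)
    have h8 : (K : ℝ) ^ (-((U : ℝ) + 2)) = 1 / (K : ℝ) ^ (U + 1) * (1 / K) := by
      have : -((U : ℝ) + 2) = -(((U + 1 : ℕ) : ℝ) + 1) := by push_cast; ring
      rw [this, Real.rpow_neg hK0.le, Real.rpow_add_one hK0.ne', Real.rpow_natCast, mul_inv]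
      simp
    calc C₁ * (((2 ^ K : ℕ) : ℝ) / L ^ (W + 1) / 2 ^ m) ^ η₁ ≤
        C₁ * ((2 ^ (e + (W + 1))) ^ η₁ * (K : ℝ) ^ (-(((W : ℝ) + 1) * η₁))) := by
          rw [← h5]
          exact mul_le_mul_of_nonneg_left h4 hC.le
      _ ≤ C₁ * ((2 ^ (e + (W + 1))) ^ η₁ * (1 / (K : ℝ) ^ (U + 1) * (1 / K))) := by
          apply mul_le_mul_of_nonneg_left _ hC.le
          apply mul_le_mul_of_nonneg_left _ (by positivity)
          rw [← h8]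
          exact h7
      _ = 1 / (K : ℝ) ^ (U + 1) * ((C₁ * (2 ^ (e + (W + 1))) ^ η₁) / K) := by ring
      _ ≤ 1 / (K : ℝ) ^ (U + 1) * 1 := by
          apply mul_le_mul_of_nonneg_left _ (by positivity)
          rw [div_le_one hK0]
          have : (K₁ : ℝ) ≤ K := by exact_mod_cast (by omega : K₁ ≤ K)
          linarith
      _ = _ := mul_one _

end Pool.Agent.V5helper44.FZ
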