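import Pool.Agent.V5helper44.FZ.Stm2
import Pool.Agent.V5helper44.FZ.Num

/-!
# Project FZ: job CLS
-/

set_option autoImplicit false

open Finset MeasureTheory Filter Topology

namespace Pool.Agent.V5helper44.FZ

open Pool.Agent.H807R2.Dav (ee norm_ee ee_add)
open Pool.Agent.W93.AU (Law)
open Pool.Agent.W93.DG (ne Ext)
open Pool.Agent.N625.DY (Cls ClsV)

lemma ex_eq_ee (x : ℝ) : ex x = ee x := by
  unfold ex
  rw [Pool.Agent.H807R2.Dav.ee_eq]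
  congr 1
  push_cast
  ring

theorem t_CLS : S_CLS := by
  intro C₁ η₁ hC hη
  refine ⟨le_rfl, one_ne_zero, fun k p hp v => hp.1 v, fun k p hp => hp.2.1, ⟨1, le_rfl, fun e V => ?_⟩, fun e U => ?_⟩
  · obtain ⟨D, K₀, hD1, hD⟩ := num_law C₁ η₁ hC hη e V
    refine ⟨D, K₀ + 1, fun K hK m hm p hp cc => ⟨fun v _ => hp.1 v, hp.2.1.le, fun t ht => ?_⟩⟩
    have hi : 1 ≤ D * (Nat.log 2 K + 1) := Nat.mul_pos (by omega) (by omega)
    have hdist := Pool.Agent.N193.PS.ne_dist 1 (D * (Nat.log 2 K + 1)) K t hi (by simpa using ht)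
    have h1 := hp.2.2.1 ((t : ℝ) / ((2 ^ (K + 1) : ℕ) : ℝ)) ((2 : ℝ) ^ (D * (Nat.log 2 K + 1) - 1) / 2 ^ (K + 1))
      (by positivity) (fun q => by
        have := hdist q
        rwa [Int.cast_one, one_mul] at this)
    refine le_trans (le_of_eq ?_) (h1.trans (hD K (by omega) m hm))
    obtain ⟨θ0, hθ0⟩ : ∃ θ0, θ0 = (t : ℝ) / ((2 ^ (K + 1) : ℕ) : ℝ) := ⟨_, rfl⟩
    rw [← hθ0]
    have h3 : ∑ v ∈ range (2 ^ m), ((p v : ℝ) : ℂ) * ee (((cc + 1 * (v : ℕ) : ℤ) : ℝ) * θ0) =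
        ee (cc * θ0) * ∑ v ∈ range (2 ^ m), ((p v : ℝ) : ℂ) * ex (θ0 * v) := by
      rw [mul_sum]
      refine sum_congr rfl fun v _ => ?_
      have h4 : ee (((cc + 1 * (v : ℕ) : ℤ) : ℝ) * θ0) = ee (cc * θ0) * ex (θ0 * (v : ℕ)) := by
        rw [ex_eq_ee, ← ee_add]
        congr 1
        push_cast
        ring
      rw [h4]
      ring
    rw [h3, norm_mul, norm_ee, one_mul]
  · obtain ⟨W, K₀, hW⟩ := num_anti C₁ η₁ hC hη e U
    refine ⟨W, K₀, fun K hK m hm p hp cc Sm _ hSm => ?_⟩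
    obtain ⟨h1, h2⟩ := hW K hK m hm
    have h3 := hp.2.2.2 (-(cc : ℝ)) _ h1
    refine le_trans ?_ (h3.trans h2)
    rw [← sum_filter]
    refine sum_le_sum_of_subset_of_nonneg ?_ (fun v _ _ => hp.1 v)
    intro v hv
    rw [mem_filter] at hv ⊢
    refine ⟨hv.1, ?_⟩
    obtain ⟨h4, h5⟩ := hSm v (mem_range.1 hv.1) hv.2
    have h6 : ((cc + 1 * (v : ℕ) : ℤ) : ℝ) = (v : ℝ) - (-(cc : ℝ)) := by
      push_cast
      ring
    rw [h6] at h5
    have h7 : (1 : ℝ) ≤ (v : ℝ) - (-(cc : ℝ)) := by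
      rw [← h6]
      exact_mod_cast h4
    rw [abs_of_nonneg (by linarith)]
    exact h5.le

end Pool.Agent.V5helper44.FZ
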