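import Pool.Agent.V5helper44.FZ.Stm3

/-!
# Project FZ: the assembly (Borel-Cantelli)
-/

set_option autoImplicit false

open Finset MeasureTheory Filter Topology

namespace Pool.Agent.V5helper44.FZ

open Pool.Agent.Results.MP_dd84fd_nt.AsymptoticEveryModulus (Formula)

/-- Borel-Cantelli for `P.real` -/
lemma bc {Ω : Type} [MeasurableSpace Ω] (P : Measure Ω) [IsFiniteMeasure P] (S : ℕ → Set Ω) (u : ℕ → ℝ)
    (hu : Summable u) (h : ∀ᶠ n in atTop, P.real (S n) ≤ u n) : ∀ᵐ ω ∂P, ∀ᶠ n in atTop, ω ∉ S n := by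
  obtain ⟨n₀, hn₀⟩ := eventually_atTop.1 h
  have h1 : ∑' n, P (S (n + n₀)) ≠ ⊤ := by
    have h2 : ∀ n, P (S (n + n₀)) ≤ ENNReal.ofReal (u (n + n₀)) := by
      intro n
      have h3 := hn₀ (n + n₀) (by omega)
      rw [Measure.real] at h3
      exact (ENNReal.le_ofReal_iff_toReal_le (measure_ne_top P _) (le_trans ENNReal.toReal_nonneg h3)).2 h3
    have h4 : Summable fun n => u (n + n₀) := (summable_nat_add_iff n₀).2 hu
    have hnn : ∀ n, 0 ≤ u (n + n₀) := fun n => le_trans ENNReal.toReal_nonneg (hn₀ (n + n₀) (by omega))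
    refine ne_top_of_le_ne_top ?_ (ENNReal.tsum_le_tsum h2)
    rw [← ENNReal.ofReal_tsum_of_nonneg hnn h4]
    exact ENNReal.ofReal_ne_top
  have h6 : ∀ᵐ ω ∂P, ∀ᶠ n in atTop, ω ∉ S (n + n₀) := ae_eventually_notMem h1
  filter_upwards [h6] with ω hω
  obtain ⟨n₁, hn₁⟩ := eventually_atTop.1 hω
  refine eventually_atTop.2 ⟨n₁ + n₀, fun n hn => ?_⟩
  have := hn₁ (n - n₀) (by omega)
  rwa [Nat.sub_add_cancel (by omega)] at this

/-- the property of the problem for the even integers near `x`, for fixed parameters -/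
def NearG (Q : ℕ → Prop) (x r : ℝ) : Prop := ∀ m : ℕ, 0 < m → Even m → |(m : ℝ) - x| ≤ r → Q m

/-- random variables -/
theorem rv (hONE : S_ONE2) (ε : ℝ) (hε : 0 < ε) (A m₀ : ℕ) (Q : ℕ → Prop)
    (hQ : ∀ m : ℕ, m₀ ≤ m → 2 ∣ m → Pool.Agent.W93.PG.WinP ε A m → Q m) {Ω : Type} [MeasurableSpace Ω]
    (P : Measure Ω) [IsProbabilityMeasure P] (X : ℕ → Ω → ℝ) (N : ℕ → ℝ) (B C₀ η : ℝ) (T : ℕ) (hη : 0 < η)
    (hX : ∀ n, Measurable (X n)) (hN : Tendsto N atTop atTop) (hs : Summable fun n => 1 / Real.log (N n) ^ T)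
    (hB : ∀ᶠ n in atTop, ∀ ω, |X n ω| ≤ B * N n) (hD : ∀ᶠ n in atTop, Decay P (X n) (N n) C₀ η) (W : ℕ) :
    ∀ᵐ ω ∂P, ∀ᶠ n in atTop, NearG Q (X n ω) (Real.log (N n) ^ W) := by
  obtain ⟨N₀, h0⟩ := hONE (max 1 ⌈B⌉₊) C₀ η ε A W T m₀ Q (le_max_left _ _) hη hε hQ
  have h1 := bc P (fun n => {ω | ∃ m : ℕ, 0 < m ∧ Even m ∧ ¬ Q m ∧ |(m : ℝ) - X n ω| ≤ Real.log (N n) ^ W}) _ hs (by
    filter_upwards [hB, hD, hN.eventually_ge_atTop N₀, hN.eventually_ge_atTop 0] with n h2 h3 h4 h5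
    refine h0 Ω P (X n) (hX n) (N n) h4 (fun ω => (h2 ω).trans ?_) h3
    apply mul_le_mul_of_nonneg_right _ h5
    push_cast
    exact (Nat.le_ceil B).trans (le_max_right _ _))
  filter_upwards [h1] with ω hω
  filter_upwards [hω] with n hn m hm0 hm hmd
  by_contra hcon
  exact hn ⟨m, hm0, hm, hcon, hmd⟩

/-- clamping -/
noncomputable def clamp (R α : ℝ) : ℝ := max (-R) (min R α)

lemma clamp_eq {R α : ℝ} (h : |α| ≤ R) : clamp R α = α := by
  have h1 := abs_le.1 h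
  unfold clamp
  rw [min_eq_right h1.2, max_eq_right h1.1]

lemma abs_clamp {R : ℝ} (hR : 0 ≤ R) (α : ℝ) : |clamp R α| ≤ R := by
  rw [abs_le]
  unfold clamp
  exact ⟨le_max_left _ _, max_le (by linarith) (min_le_left _ _)⟩

lemma measurable_clamp (R : ℝ) : Measurable (clamp R) := by
  unfold clamp
  fun_prop

/-- probability measures on bounded intervals with polynomial Fourier decay -/
theorem line_prob (hONE : S_ONE2) (hMUR : S_MUR) (ε : ℝ) (hε : 0 < ε) (A m₀ : ℕ) (Q : ℕ → Prop)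
    (hQ : ∀ m : ℕ, m₀ ≤ m → 2 ∣ m → Pool.Agent.W93.PG.WinP ε A m → Q m)
    (μ : Measure ℝ) [IsProbabilityMeasure μ] (R C₀ η : ℝ) (hη : 0 < η) (hR : ∀ᵐ α ∂μ, |α| ≤ R)
    (hμ : ∀ t : ℝ, 1 ≤ |t| → ‖∫ α, ex (t * α) ∂μ‖ ≤ C₀ * |t| ^ (-η))
    (v c : ℕ → ℝ) (B : ℝ) (T : ℕ) (hv : Tendsto v atTop atTop) (hs : Summable fun n => 1 / Real.log (v n) ^ T)
    (hc : ∀ n, |c n| ≤ B * v n) (W : ℕ) :
    ∀ᵐ α ∂μ, ∀ᶠ n in atTop, NearG Q (c n + α * v n) (Real.log (v n) ^ W) := by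
  have hR0 : 0 ≤ R := by
    by_contra hneg
    have : ∀ᵐ _α : ℝ ∂μ, False := by
      filter_upwards [hR] with α hα
      exact hneg ((abs_nonneg α).trans hα)
    have h1 : μ = 0 := by
      rwa [← ae_eq_bot, ← Filter.eventually_false_iff_eq_bot]
    exact IsProbabilityMeasure.ne_zero μ h1
  have h1 := rv hONE ε hε A m₀ Q hQ μ (fun n α => c n + clamp R α * v n) v (B + R) (max C₀ 1) η T hη
    (fun n => by
      have := measurable_clamp R
      fun_prop) hv hs (by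
      filter_upwards [hv.eventually_ge_atTop 0] with n h2 ω
      have h3 := hc n
      have h4 := abs_clamp hR0 ω
      calc |c n + clamp R ω * v n| ≤ |c n| + |clamp R ω * v n| := abs_add_le _ _
        _ = |c n| + |clamp R ω| * v n := by rw [abs_mul, abs_of_nonneg h2]
        _ ≤ B * v n + R * v n := add_le_add h3 (mul_le_mul_of_nonneg_right h4 h2)
        _ = (B + R) * v n := by ring) (by
      filter_upwards [hv.eventually_gt_atTop 0] with n h2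
      have h3 := hMUR μ C₀ η hη hμ (c n) (v n) h2
      intro θ hθ
      have h4 := h3 θ hθ
      have h5 : ∫ α, ex (θ * (c n + clamp R α * v n)) ∂μ = ∫ α, ex (θ * (c n + α * v n)) ∂μ := by
        apply integral_congr_ae
        filter_upwards [hR] with α hα
        simp only [clamp_eq hα]
      simp only at h4 ⊢
      rw [h5]
      exact h4) W
  filter_upwards [h1, hR] with α h2 h3
  simp only [clamp_eq h3] at h2
  exact h2

/-- finite measures -/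
theorem line (hONE : S_ONE2) (hMUR : S_MUR) (ε : ℝ) (hε : 0 < ε) (A m₀ : ℕ) (Q : ℕ → Prop)
    (hQ : ∀ m : ℕ, m₀ ≤ m → 2 ∣ m → Pool.Agent.W93.PG.WinP ε A m → Q m)
    (μ : Measure ℝ) [IsFiniteMeasure μ] (R C₀ η : ℝ) (hη : 0 < η) (hR : ∀ᵐ α ∂μ, |α| ≤ R)
    (hμ : ∀ t : ℝ, 1 ≤ |t| → ‖∫ α, ex (t * α) ∂μ‖ ≤ C₀ * |t| ^ (-η))
    (v c : ℕ → ℝ) (B : ℝ) (T : ℕ) (hv : Tendsto v atTop atTop) (hs : Summable fun n => 1 / Real.log (v n) ^ T)
    (hc : ∀ n, |c n| ≤ B * v n) (W : ℕ) :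
    ∀ᵐ α ∂μ, ∀ᶠ n in atTop, NearG Q (c n + α * v n) (Real.log (v n) ^ W) := by
  by_cases h0 : μ = 0
  · rw [h0]
    simp
  have : NeZero μ := ⟨h0⟩
  have hu : μ Set.univ ≠ 0 := by
    rwa [Ne, Measure.measure_univ_eq_zero]
  have hfin : μ Set.univ ≠ ⊤ := measure_ne_top μ _
  have hprob : IsProbabilityMeasure ((μ Set.univ)⁻¹ • μ) := inferInstance
  have habs : μ ≪ (μ Set.univ)⁻¹ • μ := by
    apply Measure.AbsolutelyContinuous.mk
    intro s _ hs0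
    rw [Measure.smul_apply, smul_eq_mul, mul_eq_zero] at hs0
    rcases hs0 with h | h
    · exact absurd (ENNReal.inv_eq_zero.1 h) hfin
    · exact h
  have hR' : ∀ᵐ α ∂((μ Set.univ)⁻¹ • μ), |α| ≤ R := Measure.ae_smul_measure hR _
  have hμ' : ∀ t : ℝ, 1 ≤ |t| → ‖∫ α, ex (t * α) ∂((μ Set.univ)⁻¹ • μ)‖ ≤
      ((μ Set.univ)⁻¹.toReal * C₀) * |t| ^ (-η) := by
    intro t ht
    rw [integral_smul_measure, norm_smul, Real.norm_of_nonneg ENNReal.toReal_nonneg, mul_assoc]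
    exact mul_le_mul_of_nonneg_left (hμ t ht) ENNReal.toReal_nonneg
  have h1 := line_prob hONE hMUR ε hε A m₀ Q hQ ((μ Set.univ)⁻¹ • μ) R _ η hη hR' hμ' v c B T hv hs hc W
  exact habs.ae_le h1

/-- powers of an integer -/
theorem bases (hONE : S_ONE2) (hMUR : S_MUR) (ε : ℝ) (hε : 0 < ε) (A m₀ : ℕ) (Q : ℕ → Prop)
    (hQ : ∀ m : ℕ, m₀ ≤ m → 2 ∣ m → Pool.Agent.W93.PG.WinP ε A m → Q m)
    (μ : Measure ℝ) [IsFiniteMeasure μ] (R C₀ η : ℝ) (hη : 0 < η) (hR : ∀ᵐ α ∂μ, |α| ≤ R)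
    (hμ : ∀ t : ℝ, 1 ≤ |t| → ‖∫ α, ex (t * α) ∂μ‖ ≤ C₀ * |t| ^ (-η)) (b : ℕ) (hb : 2 ≤ b) (W : ℕ) :
    ∀ᵐ α ∂μ, ∀ᶠ n : ℕ in atTop, NearG Q (α * (b : ℝ) ^ n) ((n : ℝ) ^ W) := by
  have hb2 : (2 : ℝ) ≤ b := by exact_mod_cast hb
  have hlb : 1 / 2 ≤ Real.log b := by
    have h1 : Real.log 2 ≤ Real.log b := Real.log_le_log (by norm_num) hb2
    linarith [Real.log_two_gt_d9]
  have hlog : ∀ n : ℕ, Real.log ((b : ℝ) ^ n) = n * Real.log b := fun n => Real.log_pow _ _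
  have h1 := line hONE hMUR ε hε A m₀ Q hQ μ R C₀ η hη hR hμ (fun n => (b : ℝ) ^ n) (fun _ => 0) 0 2
    (tendsto_pow_atTop_atTop_of_one_lt (by linarith)) (by
      have h2 : (fun n : ℕ => 1 / Real.log ((b : ℝ) ^ n) ^ 2) = fun n : ℕ => 1 / Real.log b ^ 2 * (1 / (n : ℝ) ^ 2) := by
        funext n
        rw [hlog, mul_pow]
        rw [one_div_mul_one_div, mul_comm]
      rw [h2]
      exact (Real.summable_one_div_nat_pow.2 (by norm_num)).mul_left _) (fun n => by simp) (W + 1)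
  filter_upwards [h1] with α hα
  filter_upwards [hα, eventually_ge_atTop (2 ^ (W + 1))] with n hn hn2 m hm0 hm hmd
  refine hn m hm0 hm ?_
  rw [zero_add]
  refine hmd.trans ?_
  rw [hlog]
  have hn3 : (2 : ℝ) ^ (W + 1) ≤ n := by exact_mod_cast hn2
  have hn0 : (0 : ℝ) < n := lt_of_lt_of_le (by positivity) hn3
  calc (n : ℝ) ^ W = ((n : ℝ) / 2) ^ (W + 1) * (2 ^ (W + 1) / n) := by
        rw [div_pow, pow_succ (n : ℝ) W]
        field_simp
    _ ≤ ((n : ℝ) / 2) ^ (W + 1) * 1 := by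
        apply mul_le_mul_of_nonneg_left _ (by positivity)
        rw [div_le_one hn0]
        exact hn3
    _ = ((n : ℝ) / 2) ^ (W + 1) := mul_one _
    _ ≤ (n * Real.log b) ^ (W + 1) := by
        apply pow_le_pow_left₀ (by positivity)
        nlinarith

/-- Lebesgue almost all `t` and starshaped functions -/
theorem leb (hSTA : S_STA) (hEXC : S_EXC) (ε : ℝ) (hε : 0 < ε) (A m₀ : ℕ) (Q : ℕ → Prop)
    (hQ : ∀ m : ℕ, m₀ ≤ m → 2 ∣ m → Pool.Agent.W93.PG.WinP ε A m → Q m)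
    (a : ℝ) (f : ℕ → ℝ → ℝ) (hf : Starshaped a f) (hF : Fast a f) :
    ∀ᵐ t : ℝ, a < t → ∀ W : ℕ, ∀ᶠ n : ℕ in atTop, NearG Q (f n t) (Real.log (f n t) ^ W) := by
  have h1 := hSTA {m | 0 < m ∧ Even m ∧ ¬ Q m} (fun U => by
    obtain ⟨x₀, hx₀⟩ := hEXC ε A hε (U + 1)
    have h2 := (Real.isLittleO_pow_log_id_atTop (n := U)).bound (show (0 : ℝ) < 1 / (2 * m₀ + 1) by positivity)
    obtain ⟨x₁, hx₁⟩ := eventually_atTop.1 (h2.and ((eventually_ge_atTop x₀).and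
      ((eventually_ge_atTop (1 : ℝ)).and (Real.tendsto_log_atTop.eventually_ge_atTop 2))))
    refine ⟨x₁, fun x hx => ?_⟩
    obtain ⟨h3, h4, h5, h6⟩ := hx₁ x hx
    have h7 := hx₀ x h4
    have hfin : {m : ℕ | m ∈ Exc ε A ∧ (m : ℝ) ≤ x}.Finite := by
      apply (Set.finite_le_nat ⌊x⌋₊).subset
      rintro m ⟨_, hm⟩
      exact Nat.le_floor hm
    have h8 : {m : ℕ | m ∈ {m | 0 < m ∧ Even m ∧ ¬ Q m} ∧ (m : ℝ) ≤ x} ⊆
        {m : ℕ | m ∈ Exc ε A ∧ (m : ℝ) ≤ x} ∪ (range m₀ : Finset ℕ) := by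
      rintro m ⟨⟨hm0, hm, hmQ⟩, hmx⟩
      by_cases hmm : m₀ ≤ m
      · refine Or.inl ⟨⟨hm0, hm, fun hform => hmQ (hQ m hmm hm.two_dvd hform.2)⟩, hmx⟩
      · refine Or.inr ?_
        rw [coe_range]
        exact not_le.1 hmm
    have h9 : (({m : ℕ | m ∈ {m | 0 < m ∧ Even m ∧ ¬ Q m} ∧ (m : ℝ) ≤ x}.ncard : ℕ) : ℝ) ≤ x / Real.log x ^ (U + 1) + m₀ := by
      have h10 := Set.ncard_le_ncard h8 (hfin.union (finite_toSet _))
      have h11 := Set.ncard_union_le {m : ℕ | m ∈ Exc ε A ∧ (m : ℝ) ≤ x} ((range m₀ : Finset ℕ) : Set ℕ)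
      rw [Set.ncard_coe_finset, card_range] at h11
      have h12 : (({m : ℕ | m ∈ {m | 0 < m ∧ Even m ∧ ¬ Q m} ∧ (m : ℝ) ≤ x}.ncard : ℕ) : ℝ) ≤
          ({m : ℕ | m ∈ Exc ε A ∧ (m : ℝ) ≤ x}.ncard : ℝ) + m₀ := by
        exact_mod_cast h10.trans h11
      linarith
    refine h9.trans ?_
    have hL0 : 0 < Real.log x := by linarith
    have hLU : 0 < Real.log x ^ U := by positivity
    have h13 : (m₀ : ℝ) ≤ x / Real.log x ^ U / 2 := by
      rw [Real.norm_of_nonneg hLU.le, id, Real.norm_of_nonneg (by linarith)] at h3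
      rw [div_div, le_div_iff₀ (by positivity)]
      have h14 : (m₀ : ℝ) * (Real.log x ^ U * 2) ≤ m₀ * ((1 / (2 * m₀ + 1) * x) * 2) := by
        apply mul_le_mul_of_nonneg_left _ (Nat.cast_nonneg _)
        linarith
      refine h14.trans ?_
      have h15 : (m₀ : ℝ) * ((1 / (2 * m₀ + 1) * x) * 2) = (2 * m₀ / (2 * m₀ + 1)) * x := by ring
      rw [h15]
      have h16 : (2 * (m₀ : ℝ) / (2 * m₀ + 1)) ≤ 1 := by
        rw [div_le_one (by positivity)]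
        linarith
      nlinarith
    have h17 : x / Real.log x ^ (U + 1) ≤ x / Real.log x ^ U / 2 := by
      rw [div_div]
      apply div_le_div_of_nonneg_left (by linarith) (by positivity)
      rw [pow_succ]
      exact mul_le_mul_of_nonneg_left h6 hLU.le
    linarith) a f hf hF
  filter_upwards [h1] with t ht hat W
  filter_upwards [ht hat W] with n hn m hm0 hm hmd
  by_contra hcon
  exact hn m ⟨hm0, hm, hcon⟩ hmd

end Pool.Agent.V5helper44.FZ
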