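import Mathlib

/-!
# Project FZ: Goldbach representations near random real numbers with decaying characteristic functions
(MP_dd84fd_nt, very famous row). Statements of the jobs which need only Mathlib.

THEOREM. Let `X_n` be random real numbers, `|X_n| ≤ B N_n`, `|E e(θ X_n)| ≤ C₀ (|θ| N_n) ^ (-η)` for all `θ ≠ 0`, and
`∑ (log N_n) ^ (-A) < ∞`. Almost surely for all large `n` ALL even integers `m > 0` within `(log N_n) ^ W` of `X_n` have the
number of Goldbach representations predicted by Hardy and Littlewood (up to `1 ± ε`, in all long windows). In particular for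
`X_n = c_n + α v_n` for `μ`-almost all `α`, `μ` any measure on a bounded interval with a Fourier transform of polynomial decay:
the exceptional set of `α` has Fourier dimension zero. And for Lebesgue almost all `α` and `X_n = f_n(α)`, `f_n(t) / t`
nondecreasing (`α ^ n`, ...).

The rounding of `X` to the integer `v` is done with the weights `hat (X - v)`, `hat y = max 0 (1 - |y|)`.
-/

set_option autoImplicit false

open Finset MeasureTheory Filter Topology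

namespace Pool.Agent.V5helper44.FZ

/-- the hat function -/
noncomputable def hat (y : ℝ) : ℝ := max 0 (1 - |y|)

/-- `e(y) = exp (2 π i y)` -/
noncomputable def ex (y : ℝ) : ℂ := Complex.exp (2 * Real.pi * y * Complex.I)

/-- the probability that the rounding of `X` is `v` -/
noncomputable def pr {Ω : Type} [MeasurableSpace Ω] (P : Measure Ω) (X : Ω → ℝ) (v : ℕ) : ℝ :=
  ∫ ω, hat (X ω - v) ∂P

/-- the characteristic function of `X` decays, at the scale `N` -/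
def Decay {Ω : Type} [MeasurableSpace Ω] (P : Measure Ω) (X : Ω → ℝ) (N C₀ η : ℝ) : Prop :=
  ∀ θ : ℝ, θ ≠ 0 → ‖∫ ω, ex (θ * X ω) ∂P‖ ≤ C₀ * (|θ| * N) ^ (-η)

/-- **POI** (120 lines). Poisson summation for the hat function. Proof: `f(x) = e(-θ x) g(x)`, `g(x) = ∑ hat(x - v) e(θ v)` over all
integers `v` (two terms: for `x = n + y`, `0 ≤ y ≤ 1`, it is `e(θ n) ((1 - y) + y e(θ))`), is continuous and has period one; its
Fourier coefficients are `∫_0^1 ((1 - y) + y e(θ)) e(-(θ + j) y) dy = sinc(π (θ + j))²` (for `ξ = θ + j`, `e(θ) = e(ξ)`: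
`∫_0^1 (1 - y) e(-ξ y) + y e(ξ (1 - y)) dy = ∫_{-1}^1 hat(y) e(-ξ y) dy = (sin(π ξ) / (π ξ))²`, for `ξ = 0` it is `1`), which are summable
(`≤ 1 / (π ξ)²`); so the Fourier series converges to `f` at every point
(`has_pointwise_sum_fourier_series_of_summable`, with `AddCircle (1 : ℝ)`, `fourierCoeffOn`, ...). -/
def S_POI : Prop := ∀ (θ x : ℝ) (M : ℕ), 0 ≤ x → x ≤ M →
  HasSum (fun j : ℤ => (((Real.sinc (Real.pi * (θ + j))) ^ 2 : ℝ) : ℂ) * ex ((θ + j) * x))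
    (∑ v ∈ range (M + 1), ((hat (x - v) : ℝ) : ℂ) * ex (θ * v))

/-- **CHI** (100 lines, uses POI). The characteristic function of the rounding. Proof:
`∑_v pr v e(θ v) = E ∑_v hat(X - v) e(θ v) = E ∑_j sinc² e((θ + j) X) = ∑_j sinc(π (θ + j))² E e((θ + j) X)` (the coefficients are
nonnegative with sum `1`: POI for `x = 0`; `hasSum_integral_of_summable_integral_norm` or `integral_tsum`), and
`|E e((θ + j) X)| ≤ C₀ (|θ + j| N) ^ (-η) ≤ C₀ (δ N) ^ (-η)`. -/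
def S_CHI : Prop := ∀ (Ω : Type) [MeasurableSpace Ω] (P : Measure Ω) [IsProbabilityMeasure P] (X : Ω → ℝ), Measurable X →
  ∀ (M : ℕ) (N C₀ η : ℝ), 0 < N → 0 ≤ C₀ → 0 < η → (∀ ω, 0 ≤ X ω ∧ X ω ≤ M) → Decay P X N C₀ η →
  ∀ θ δ : ℝ, 0 < δ → (∀ q : ℤ, δ ≤ |θ - q|) →
    ‖∑ v ∈ range (M + 1), ((pr P X v : ℝ) : ℂ) * ex (θ * v)‖ ≤ C₀ * (δ * N) ^ (-η)

open Classical in
/-- **PRO** (120 lines). Simple properties of the rounding: nonnegative; sum one (`∑_{v ≤ M} hat(x - v) = 1` for `0 ≤ x ≤ M`);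
concentration (`hat(X - v) ≠ 0` and `|v - a| ≤ r` imply `|X - a| ≤ r + 1`, and the sum of the hats is one); and: if every
integer `v` within `1/2` of `X ω`, `ω ∈ D`, is in `B`, then `P(D) ≤ 2 ∑_{v ∈ B} pr v` (some integer `v`, `0 ≤ v ≤ M`, is within `1/2` of
`X ω` and `hat(X ω - v) ≥ 1/2`; so `D` is contained in the measurable set of the `ω` with `∑_{v ≤ M, v ∈ B} hat (X ω - v) ≥ 1/2`, Markov). -/
def S_PRO : Prop := ∀ (Ω : Type) [MeasurableSpace Ω] (P : Measure Ω) [IsProbabilityMeasure P] (X : Ω → ℝ), Measurable X →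
  ∀ M : ℕ, (∀ ω, 0 ≤ X ω ∧ X ω ≤ M) →
    (∀ v, 0 ≤ pr P X v) ∧ ∑ v ∈ range (M + 1), pr P X v = 1 ∧
    (∀ a r : ℝ, ∑ v ∈ (range (M + 1)).filter (fun v : ℕ => |(v : ℝ) - a| ≤ r), pr P X v ≤
      P.real {ω | |X ω - a| ≤ r + 1}) ∧
    ∀ (B : Set ℕ) (D : Set Ω), (∀ ω ∈ D, ∀ v : ℕ, |X ω - v| ≤ 1 / 2 → v ∈ B) →
      P.real D ≤ 2 * ∑ v ∈ (range (M + 1)).filter (fun v => v ∈ B), pr P X v

/-- **CON** (120 lines). Decay implies non-concentration. Proof: we may take `η₁ = min η (1/2)` (the integrals below are at most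
`1` in absolute value, so `|E e(θ X)| ≤ max C₀ 1 * (|θ| N) ^ (-η₁)` in all cases). `∫_{-1}^1 (1 - |s|) e(s y) ds = sinc(π y)² ≥ 1/3` if
`|y| ≤ 1/2` (`sinc(t) ≥ 2/π` on `[0, π/2]`, Jordan's inequality), so with `y = (X - a) / (2 r)`
`P(|X - a| ≤ r) ≤ 3 E ∫_{-1}^1 (1 - |s|) e(s y) ds = 3 ∫_{-1}^1 (1 - |s|) e(-s a / (2 r)) E e(s X / (2 r)) ds` (Fubini)
`≤ 3 C ∫_{-1}^1 (|s| N / (2 r)) ^ (-η₁) ds = 6 C (2 r / N) ^ η₁ / (1 - η₁)`. -/
def S_CON : Prop := ∀ C₀ η : ℝ, 0 < η → ∃ C₁ η₁ : ℝ, 0 < C₁ ∧ 0 < η₁ ∧ η₁ ≤ η ∧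
  ∀ (Ω : Type) [MeasurableSpace Ω] (P : Measure Ω) [IsProbabilityMeasure P] (X : Ω → ℝ), Measurable X →
  ∀ N : ℝ, 0 < N → Decay P X N C₀ η → ∀ a r : ℝ, 0 < r → P.real {ω | |X ω - a| ≤ r} ≤ C₁ * (r / N) ^ η₁

/-- the sequence of positive functions `f n` on `(a, ∞)`, `a ≥ 0`, is starshaped: `f n x / x` is nondecreasing -/
def Starshaped (a : ℝ) (f : ℕ → ℝ → ℝ) : Prop :=
  0 ≤ a ∧ ∀ n : ℕ, ∀ x y : ℝ, a < x → x ≤ y → 0 < f n x ∧ f n x / x ≤ f n y / y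

/-- `log f_n(x)` tends to infinity at least as a power of `n`, in the form: some power of its inverse is summable -/
def Fast (a : ℝ) (f : ℕ → ℝ → ℝ) : Prop :=
  ∀ x : ℝ, a < x → Tendsto (fun n => f n x) atTop atTop ∧ ∃ A : ℕ, Summable fun n : ℕ => 1 / Real.log (f n x) ^ A

/-- **STA** (200 lines). Lebesgue almost all `α` and starshaped functions, for sets of integers with at most `x / (log x)^A`
members up to `x`, for every `A`. Proof: fix `W` and rationals `a < b₁ < b₂`, show that almost all `t ∈ (b₁, b₂)` are in finitely many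
of the sets `S_n = {t | b₁ < t < b₂, ∃ m ∈ E, |m - f_n(t)| ≤ (log f_n(t))^W}`. Let `F = f_n(b₁)`, large with `n`. For `t ∈ S_n` with `m`:
`f_n(t) ≥ F` (as `f_n(t) ≥ f_n(b₁) t / b₁`), `m ≥ F / 2` and `|m - f_n(t)| ≤ (log f_n(t))^W ≤ r_m := (2 log m)^W`. For a given `m` any two `t < t'` in `S_n`
with this `m` satisfy `f_n(t') - f_n(t) ≤ 2 r_m` and `f_n(t') ≥ f_n(t) t' / t`, so `t' - t ≤ 2 r_m t / f_n(t) ≤ 2 r_m b₂ / (m / 2)`, and the set of
these `t` has diameter at most `4 b₂ (2 log m)^W / m`. So the (outer) measure of `S_n` is at most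
`∑_{m ∈ E, m ≥ F/2} 4 b₂ (2 log m)^W / m`; on a dyadic block `2^j ≤ m < 2^(j+1)`, `2^(j+1) ≥ F/2`, there are at most `2^(j+1) / ((j+1) log 2)^(W+A+2)` of
them, so the sum is `≤ C b₂ ∑_{j ≥ log₂(F/4)} (j+1)^(-A-2) ≤ C' / (log F)^A`, which is summable over `n` for suitable `A` (`Fast`, `x = b₁`): Borel-Cantelli
(`measure_limsup_atTop_eq_zero` or `measure_setOf_frequently_eq_zero`; outer measures are enough). -/
def S_STA : Prop := ∀ E : Set ℕ, (∀ A : ℕ, ∃ x₀ : ℝ, ∀ x : ℝ, x₀ ≤ x →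
    (({m : ℕ | m ∈ E ∧ (m : ℝ) ≤ x}.ncard : ℕ) : ℝ) ≤ x / Real.log x ^ A) →
  ∀ (a : ℝ) (f : ℕ → ℝ → ℝ), Starshaped a f → Fast a f →
    ∀ᵐ t : ℝ, a < t → ∀ W : ℕ, ∀ᶠ n : ℕ in atTop, ∀ m : ℕ, m ∈ E → ¬ |(m : ℝ) - f n t| ≤ Real.log (f n t) ^ W

/-- **STX** (60 lines). Examples: `f n x = v n * x` and `f n x = x ^ (v n)`, `v n ≥ 1`. -/
def S_STX : Prop :=
  (∀ v : ℕ → ℝ, (∀ n, 0 < v n) → Tendsto v atTop atTop → (∃ A : ℕ, Summable fun n : ℕ => 1 / Real.log (v n) ^ A) →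
    Starshaped 0 (fun n x => v n * x) ∧ Fast 0 (fun n x => v n * x)) ∧
  ∀ v : ℕ → ℝ, (∀ n, 1 ≤ v n) → Tendsto v atTop atTop → (∃ A : ℕ, Summable fun n : ℕ => 1 / v n ^ A) →
    Starshaped 1 (fun n x => x ^ (v n)) ∧ Fast 1 (fun n x => x ^ (v n))

/-- **MUR** (80 lines). From measures on the line to random variables. For `X = c + α v`:
`|E e(θ X)| = |E e(θ v α)| ≤ C₀' (|θ| v) ^ (-η)`, `C₀' = max C₀ 1`, `E` the integral with respect to `μ`; for `|θ| v ≤ 1` the right side is at least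
`1`. -/
def S_MUR : Prop := ∀ (μ : Measure ℝ) [IsProbabilityMeasure μ] (C₀ η : ℝ), 0 < η →
  (∀ t : ℝ, 1 ≤ |t| → ‖∫ α, ex (t * α) ∂μ‖ ≤ C₀ * |t| ^ (-η)) →
  ∀ c v : ℝ, 0 < v → Decay μ (fun α => c + α * v) v (max C₀ 1) η

end Pool.Agent.V5helper44.FZ
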