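import Pool.Agent.V5helper44.FZ.Stm
import Pool.Agent.N193.PS.Cl
import Pool.Agent.N625.DY.I
import Pool.Agent.Results.MP_dd84fd_nt.AsymptoticEveryModulus

/-!
# Project FZ: the statements of the jobs which use the starting library
-/

set_option autoImplicit false

open Finset MeasureTheory Filter Topology

namespace Pool.Agent.V5helper44.FZ

open Classical in
/-- the class of the distributions `p` of random integers `0 ≤ v < 2 ^ k` whose characteristic function decays away from the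
integers, and which are not concentrated on short intervals -/
def FC (C₁ η₁ : ℝ) (k : ℕ) (p : ℕ → ℝ) : Prop :=
  (∀ v, 0 ≤ p v) ∧ ∑ v ∈ range (2 ^ k), p v = 1 ∧
  (∀ θ δ : ℝ, 0 < δ → (∀ q : ℤ, δ ≤ |θ - q|) →
    ‖∑ v ∈ range (2 ^ k), ((p v : ℝ) : ℂ) * ex (θ * v)‖ ≤ C₁ * (δ * 2 ^ k) ^ (-η₁)) ∧
  ∀ a r : ℝ, 1 ≤ r → ∑ v ∈ (range (2 ^ k)).filter (fun v : ℕ => |(v : ℝ) - a| ≤ r), p v ≤ C₁ * (r / 2 ^ k) ^ η₁

/-- **CLS** (200 lines). Adapt `Pool.Agent.N193.PS.SV.law'`, `SV.clsV` (`Pool/Agent/N193/PS/Cl.lean`), with `κ = 1`. Law: by `ne_dist 1 i K t`,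
`i = D (Nat.log 2 K + 1)`, the frequency `t / 2^(K+1)` has a distance at least `δ = 2^(i-1) / 2^(K+1)` from the integers, and
`δ 2^m = 2^(i - 2 - e) ≥ K^D / 2^(e+2)` (`K = m + e`, `K ≤ 2^(Nat.log 2 K + 1)`), so for `D η₁ ≥ V + 1` and `K` large the bound is
`C₁ (K^D / 2^(e+2))^(-η₁) ≤ K^(-V)` (`ee` of the library is `ex`; the factor `e(cc θ)` has absolute value one). Anti: if `Sm v` implies
`1 ≤ cc + v < 2^K / log(2^K)^(W+1)` then these `v` are within `r = 2^K / log(2^K)^(W+1)` of `a = -cc`, and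
`C₁ (r / 2^m)^η₁ = C₁ (2^e / (K log 2)^(W+1))^η₁ ≤ 1 / K^(U+1)` for `(W + 1) η₁ ≥ U + 2` and `K` large (`r ≥ 1` for large `K`). -/
def S_CLS : Prop := ∀ C₁ η₁ : ℝ, 0 < C₁ → 0 < η₁ → Pool.Agent.N625.DY.Cls 2 1 (FC C₁ η₁)

open Pool.Agent.Results.MP_dd84fd_nt.AsymptoticEveryModulus (Formula)

/-- the integers for which the formula of Hardy and Littlewood is false -/
def Exc (ε : ℝ) (A : ℕ) : Set ℕ := {m | 0 < m ∧ Even m ∧ ¬ Formula ε A m}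

/-- **EXC** (30 lines). From `AsymptoticEveryModulus.result` with `q = 1`, `a = 0`, `ρ = 1/3`, `T = 0`. -/
def S_EXC : Prop := ∀ (ε : ℝ) (A : ℕ), 0 < ε → ∀ U : ℕ, ∃ x₀ : ℝ, ∀ x : ℝ, x₀ ≤ x →
  (({m : ℕ | m ∈ Exc ε A ∧ (m : ℝ) ≤ x}.ncard : ℕ) : ℝ) ≤ x / Real.log x ^ U

/-- **ONE** (200 lines). One random variable (uses CHI, PRO, CON, CLS and `Pool.Agent.N625.DY.cls_gold`, `formula_of`). Proof: let
`c = -⌈B N⌉`, `X' = X - c ∈ [0, 2 B N + 1]`, `k` minimal with `2 B N + 1 ≤ 2^k - 1` (and `M = 2^k - 1`), so `2^k ≤ 4 B N + 8 ≤ (4 B + 8) N`; `Decay` is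
the same for `X'`, and `(δ N)^(-η) ≤ (4 B + 8)^η (δ 2^k)^(-η)`. In `FC` we need the same exponent `η₁ ≤ η` for both bounds:
`(δ 2^k)^(-η) ≤ (δ 2^k)^(-η₁)` if `δ 2^k ≥ 1`, and otherwise the sum is at most one in absolute value. With `PRO`, `CON` the rounding `p` of `X'` is in
`FC C₁' η₁ k`, `C₁'` depending on `B, C₀, η` only (`r + 1 ≤ 2 r`). `cls_gold` with `b = 2`, `κ = 1`, window `k^(W')`, `(log N)^W + 1 ≤ k^(W+1)`,
exponent `U + 1`, `P = Formula ε A`, `Q y = ¬ (0 < y ∧ Even y ∧ ¬ Formula ε A y.toNat)`, shift `c` (`|c| ≤ (B + 2) 2^k`) and the last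
point of `PRO` give `P(…) ≤ 2 / k^(U+1) ≤ 1 / (log N)^U` for `N ≥ N₀`. (`k ≥ log N` if `B ≥ 1`: we assume `1 ≤ B`.) -/
def S_ONE : Prop := ∀ (B : ℕ) (C₀ η ε : ℝ) (A W U : ℕ), 1 ≤ B → 0 < η → 0 < ε → ∃ N₀ : ℝ,
  ∀ (Ω : Type) [MeasurableSpace Ω] (P : Measure Ω) [IsProbabilityMeasure P] (X : Ω → ℝ), Measurable X →
  ∀ N : ℝ, N₀ ≤ N → (∀ ω, |X ω| ≤ B * N) → Decay P X N C₀ η →
    P.real {ω | ∃ m ∈ Exc ε A, |(m : ℝ) - X ω| ≤ Real.log N ^ W} ≤ 1 / Real.log N ^ U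

end Pool.Agent.V5helper44.FZ
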