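import Pool.Agent.V5helper44.FZ.Stm2

/-!
# Project FZ: job ONE for a general property
-/

set_option autoImplicit false

open Finset MeasureTheory Filter Topology

namespace Pool.Agent.V5helper44.FZ

/-- **ONE2**: the statement `S_ONE` for a general property `Q` of even integers which follows from the formula in windows
(`Pool.Agent.W93.PG.WinP`); the same proof (this is the form of `Pool.Agent.N625.DY.cls_gold`). -/
def S_ONE2 : Prop := ∀ (B : ℕ) (C₀ η ε : ℝ) (A W U m₀ : ℕ) (Q : ℕ → Prop), 1 ≤ B → 0 < η → 0 < ε →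
  (∀ m : ℕ, m₀ ≤ m → 2 ∣ m → Pool.Agent.W93.PG.WinP ε A m → Q m) → ∃ N₀ : ℝ,
  ∀ (Ω : Type) [MeasurableSpace Ω] (P : Measure Ω) [IsProbabilityMeasure P] (X : Ω → ℝ), Measurable X →
  ∀ N : ℝ, N₀ ≤ N → (∀ ω, |X ω| ≤ B * N) → Decay P X N C₀ η →
    P.real {ω | ∃ m : ℕ, 0 < m ∧ Even m ∧ ¬ Q m ∧ |(m : ℝ) - X ω| ≤ Real.log N ^ W} ≤ 1 / Real.log N ^ U

end Pool.Agent.V5helper44.FZ
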